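import Pool.Agent.Helper97_WHC.Stmt
import Pool.Agent.Helper63_WHT.SIE
import Pool.Agent.Helper83_WHT.UNF

/-!
# Squad WHC, row VOL (helper49): the volumes of the horocycles
-/

set_option autoImplicit false

open scoped BigOperators

namespace Pool.Agent.WHC.H49

open Pool.Agent.DEN Pool.Agent.TMP Pool.Agent.WHT Pool.Agent.WHC
open Pool.Agent.WHT.H83 (cl cl_eq cl_out Unf avol avol_pos mem_U0)

section

variable {r : ℕ} {C : Matrix (Fin r) (Fin r) ℤ} {K : Type} [Field K]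

theorem UO_maxK (hC : SimplyLaced C) : UO hC K ≤ maxK C K := by
  unfold UO
  rw [Subgroup.closure_le]
  rintro g ⟨β, a, _, ha, rfl⟩
  exact xg_maxK hC β ha

theorem orb_fin [Finite K] (hC : SimplyLaced C) (l : Fin r → ℤ) :
    {y : XX C K | ∃ g ∈ maxK C K, y = g • tp hC K l}.Finite := by
  refine (hKfin r C hC K (tg hC K l)).subset ?_
  rintro y ⟨g, hg, rfl⟩
  exact ⟨g, hg, rfl⟩

theorem hor_st (hC : SimplyLaced C) (m : Fin r → ℤ) {γ : grp C K} (hγ : γ ∈ Ug C K)
    (x : XX C K) : γ • x ∈ Hor hC K m ↔ x ∈ Hor hC K m := by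
  constructor
  · rintro ⟨u, hu, h⟩
    refine ⟨γ⁻¹ * u, mul_mem (inv_mem hγ) hu, ?_⟩
    rw [mul_smul, ← h, inv_smul_smul]
  · rintro ⟨u, hu, rfl⟩
    exact ⟨γ * u, mul_mem hγ hu, (mul_smul _ _ _).symm⟩

theorem cls_fin [Finite K] (hC : SimplyLaced C) {N : Polynomial K} (hN : N ≠ 0)
    (m : Fin r → ℤ) :
    {o : MulAction.orbitRel.Quotient (U0 C N) (XX C K) | o.out ∈ Hor hC K m}.Finite := by
  have s1 := (WHT.H63.sie r C hC K).1
  have hfin := (H22.hFin r C hC K).2.2 N hN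
  let A : Subgroup (grp C K) := Ug C K ⊓ arith C K 1
  have hA : A ≤ arith C K 1 := inf_le_right
  have h1 : ((cong C K 1 N).subgroupOf A).index ≠ 0 := by
    intro h
    exact hfin (Subgroup.relIndex_eq_zero_of_le_right hA h)
  have : Finite (A ⧸ (cong C K 1 N).subgroupOf A) := Subgroup.index_ne_zero_iff_finite.1 h1
  have hP := orb_fin (K := K) hC m
  refine ((Set.finite_univ.prod hP).image
    fun z : (A ⧸ (cong C K 1 N).subgroupOf A) × XX C K =>
      cl (U0 C N) ((z.1.out.1)⁻¹ • z.2)).subset ?_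
  rintro o ⟨u, hu, h2⟩
  obtain ⟨a, ha, ha', c, hc, rfl⟩ := s1 u hu
  rw [mul_smul] at h2
  let b : A := ⟨a, ⟨ha, ha'⟩⟩
  refine ⟨((QuotientGroup.mk b⁻¹ : A ⧸ (cong C K 1 N).subgroupOf A), c • tp hC K m),
    ⟨Set.mem_univ _, ⟨c, UO_maxK hC hc, rfl⟩⟩, ?_⟩
  set q : A ⧸ (cong C K 1 N).subgroupOf A := QuotientGroup.mk b⁻¹ with hq
  have h3 : (QuotientGroup.mk q.out : A ⧸ (cong C K 1 N).subgroupOf A) =
      QuotientGroup.mk b⁻¹ := by
    rw [QuotientGroup.out_eq']
  rw [QuotientGroup.eq, Subgroup.mem_subgroupOf] at h3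
  have h4 : (q.out.1)⁻¹ * a⁻¹ ∈ cong C K 1 N := h3
  have h5 : (q.out.1)⁻¹ * a⁻¹ ∈ U0 C N :=
    mem_U0.2 ⟨mul_mem (inv_mem q.out.2.1) (inv_mem ha), h4⟩
  show cl (U0 C N) ((q.out.1)⁻¹ • (c • tp hC K m)) = o
  refine Eq.trans ?_ (Quotient.out_eq o)
  refine cl_eq.2 ⟨_, h5, ?_⟩
  exact (congrArg (fun z => ((q.out.1)⁻¹ * a⁻¹) • z) h2).trans
    (by rw [mul_smul, inv_smul_smul])

theorem stab_fin [Finite K] (hC : SimplyLaced C) (N : Polynomial K) (x : XX C K) :
    Finite (MulAction.stabilizer (U0 C N) x) := by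
  have := (H22.hFin r C hC K).2.1 N x
  let φ : MulAction.stabilizer (U0 C N) x → MulAction.stabilizer (cong C K 1 N) x :=
    fun g => ⟨⟨g.1.1, (mem_U0.1 g.1.2).2⟩, g.2⟩
  refine Finite.of_injective φ ?_
  intro g h hgh
  have h1 : (g.1.1 : grp C K) = h.1.1 := congrArg (fun z => (z.1.1 : grp C K)) hgh
  exact Subtype.ext (Subtype.ext h1)

open Classical in
/-- the indicator function of the orbit of `(o, t^l o)` -/
noncomputable def kl (hC : SimplyLaced C) (K : Type) [Field K] (l : Fin r → ℤ) :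
    XX C K → XX C K → ℂ :=
  fun x y => if ∃ g : grp C K, x = g • oo C K ∧ y = g • tp hC K l then 1 else 0

theorem kl_ker [Finite K] (hC : SimplyLaced C) (l : Fin r → ℤ) : IsKer (kl hC K l) := by
  constructor
  · intro γ x y
    unfold kl
    have h : (∃ g : grp C K, γ • x = g • oo C K ∧ γ • y = g • tp hC K l) ↔
        ∃ g : grp C K, x = g • oo C K ∧ y = g • tp hC K l := by
      constructor
      · rintro ⟨g, h1, h2⟩
        refine ⟨γ⁻¹ * g, ?_, ?_⟩
        · rw [mul_smul, ← h1, inv_smul_smul]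
        · rw [mul_smul, ← h2, inv_smul_smul]
      · rintro ⟨g, rfl, rfl⟩
        exact ⟨γ * g, (mul_smul _ _ _).symm, (mul_smul _ _ _).symm⟩
    by_cases hh : ∃ g : grp C K, x = g • oo C K ∧ y = g • tp hC K l
    · rw [if_pos (h.2 hh), if_pos hh]
    · rw [if_neg (fun h1 => hh (h.1 h1)), if_neg hh]
  · intro x
    obtain ⟨g0, rfl⟩ := exists_smul x
    refine ((orb_fin (K := K) hC l).image (fun y => g0 • y)).subset ?_
    intro y hy
    have hy' : ∃ g : grp C K, g0 • oo C K = g • oo C K ∧ y = g • tp hC K l := by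
      by_contra h
      apply hy
      unfold kl
      exact if_neg h
    obtain ⟨g, h1, rfl⟩ := hy'
    refine ⟨(g0⁻¹ * g) • tp hC K l, ⟨g0⁻¹ * g, ?_, rfl⟩, ?_⟩
    · rw [mem_maxK_iff, mul_smul, ← h1, inv_smul_smul]
    · show g0 • (g0⁻¹ * g) • tp hC K l = _
      rw [← mul_smul, mul_inv_cancel_left]

theorem kl_hsum [Finite K] (hC : SimplyLaced C) (l : Fin r → ℤ) : hsum hC (kl hC K l) l ≠ 0 := by
  classical
  have hfin : (Hor hC K l ∩ Function.support (kl hC K l (oo C K))).Finite :=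
    ((kl_ker (K := K) hC l).fin (oo C K)).subset (fun y hy => hy.2)
  unfold hsum
  rw [finsum_mem_eq_sum (kl hC K l (oo C K)) hfin]
  have h1 : ∀ y ∈ hfin.toFinset, kl hC K l (oo C K) y = 1 := by
    intro y hy
    rw [Set.Finite.mem_toFinset] at hy
    have h2 : kl hC K l (oo C K) y ≠ 0 := hy.2
    unfold kl at h2 ⊢
    by_contra h
    apply h2
    rw [if_neg]
    intro h3
    exact h (if_pos h3)
  rw [Finset.sum_congr rfl h1, Finset.sum_const, nsmul_eq_mul, mul_one, Nat.cast_ne_zero]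
  apply Finset.card_ne_zero_of_mem (a := tp hC K l)
  rw [Set.Finite.mem_toFinset]
  refine ⟨⟨1, one_mem _, (one_smul _ _).symm⟩, ?_⟩
  have h2 : kl hC K l (oo C K) (tp hC K l) = 1 := by
    unfold kl
    exact if_pos ⟨1, (one_smul _ _).symm, (one_smul _ _).symm⟩
  show kl hC K l (oo C K) (tp hC K l) ≠ 0
  rw [h2]
  exact one_ne_zero

end

theorem volS : VolStmt := by
  intro r C hC K _ _ N hN m m'
  classical
  have hS : ∀ m : Fin r → ℤ, Unf (U0 C N) (U0 C N) (Hor hC K m) := fun m =>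
    ⟨le_rfl, fun γ hγ x hx => (hor_st hC m (mem_U0.1 hγ).1 x).2 hx, fun γ hγ _ _ _ => hγ,
      cls_fin hC hN m⟩
  have hvl : ∀ m : Fin r → ℤ, vol hC N m = avol (U0 C N) (Hor hC K m) := fun m => rfl
  have hpos : ∀ m : Fin r → ℤ, 0 < vol hC N m := by
    intro m
    rw [hvl]
    exact avol_pos (hS m) (stab_fin hC N) ⟨tp hC K m, 1, one_mem _, (one_smul _ _).symm⟩
  refine ⟨hpos m, ?_⟩
  -- volumes as complex sums
  have hvc : ∀ m : Fin r → ℤ, ((vol hC N m : ℝ) : ℂ) =
      ∑ᶠ o : MulAction.orbitRel.Quotient (U0 C N) (XX C K),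
        (if o.out ∈ Hor hC K m then (1 : ℂ) else 0) /
          Nat.card (MulAction.stabilizer (U0 C N) o.out) := by
    intro m
    unfold vol
    have hfin : (Function.support fun o : MulAction.orbitRel.Quotient (U0 C N) (XX C K) =>
        (if o.out ∈ Hor hC K m then (1 : ℝ) else 0) /
          Nat.card (MulAction.stabilizer (U0 C N) o.out)).Finite := by
      refine (cls_fin hC hN m).subset ?_
      intro o ho
      by_contra h
      apply ho
      have h' : ¬ o.out ∈ Hor hC K m := h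
      show (if o.out ∈ Hor hC K m then (1 : ℝ) else 0) / _ = 0
      rw [if_neg h', zero_div]
    have h1 := AddMonoidHom.map_finsum Complex.ofRealHom.toAddMonoidHom hfin
    refine h1.trans (finsum_congr fun o => ?_)
    show (((if o.out ∈ Hor hC K m then (1 : ℝ) else 0) /
      Nat.card (MulAction.stabilizer (U0 C N) o.out) : ℝ) : ℂ) = _
    rw [Complex.ofReal_div, Complex.ofReal_natCast]
    congr 1
    split_ifs <;> simp
  set k := kl hC K (m' - m) with hk
  have hker : IsKer k := kl_ker hC (m' - m)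
  have hker' : IsKer (kst k) := (hKer r C hC K).2.2.1 k hker
  let Φ : XX C K → XX C K → ℂ := fun x y =>
    if x ∈ Hor hC K m ∧ y ∈ Hor hC K m' then k x y else 0
  have hΦ : ∀ x y, Φ x y = if x ∈ Hor hC K m ∧ y ∈ Hor hC K m' then k x y else 0 :=
    fun x y => rfl
  have hΦ0 : ∀ x y, Φ x y ≠ 0 → x ∈ Hor hC K m ∧ y ∈ Hor hC K m' ∧ k x y ≠ 0 := by
    intro x y h
    rw [hΦ] at h
    by_cases h1 : x ∈ Hor hC K m ∧ y ∈ Hor hC K m'
    · rw [if_pos h1] at h
      exact ⟨h1.1, h1.2, h⟩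
    · rw [if_neg h1] at h
      exact absurd rfl h
  have hmt := Pool.Agent.DEN.TMP.hMtp (U0 C N) (XX C K) (stab_fin hC N) Φ
    (by
      intro γ x y
      have h1 := hor_st hC m (mem_U0.1 γ.2).1 x
      have h2 := hor_st hC m' (mem_U0.1 γ.2).1 y
      have h3 := hker.inv γ.1 x y
      rw [hΦ, hΦ]
      show (if (γ.1 • x) ∈ Hor hC K m ∧ (γ.1 • y) ∈ Hor hC K m' then k (γ.1 • x) (γ.1 • y)
        else 0) = _
      rw [h3]
      simp only [h1, h2])
    (fun x => (hker.fin x).subset fun y hy => (hΦ0 x y hy).2.2)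
    (fun y => ((hKer r C hC K).1 k hker y).subset fun x hx => (hΦ0 x y hx).2.2)
    ((cls_fin hC hN m).subset (by
      rintro o ⟨y, hy⟩
      exact (hΦ0 _ y hy).1))
  have hrow : ∀ x, ∑ᶠ y, Φ x y = (if x ∈ Hor hC K m then 1 else 0) * hsum hC k (m' - m) := by
    intro x
    by_cases hx : x ∈ Hor hC K m
    · rw [if_pos hx, one_mul, ← (hSmu r C hC K).2.2.2.2.2.2 k hker x m m' hx]
      refine finsum_congr fun y => ?_
      rw [hΦ]
      by_cases hy : y ∈ Hor hC K m'
      · rw [if_pos ⟨hx, hy⟩, finsum_eq_if, if_pos hy]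
      · rw [if_neg (fun h => hy h.2), finsum_eq_if, if_neg hy]
    · rw [if_neg hx, zero_mul]
      have : ∀ y, Φ x y = 0 := fun y => by rw [hΦ, if_neg (fun h => hx h.1)]
      simp [this]
  have hcol : ∀ y, ∑ᶠ x, Φ x y = (if y ∈ Hor hC K m' then 1 else 0) *
      (starRingEnd ℂ) (hsum hC (kst k) (m - m')) := by
    intro y
    by_cases hy : y ∈ Hor hC K m'
    · rw [if_pos hy, one_mul, ← (hSmu r C hC K).2.2.2.2.2.2 (kst k) hker' y m' m hy]
      have h1 : (starRingEnd ℂ) (∑ᶠ x ∈ Hor hC K m, kst k y x) =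
          ∑ᶠ x ∈ Hor hC K m, (starRingEnd ℂ) (kst k y x) := by
        have h2 := AddMonoidHom.map_finsum_mem' (f := fun x => kst k y x)
          (starRingEnd ℂ).toAddMonoidHom (s := Hor hC K m)
          ((hker'.fin y).subset fun x hx => hx.2)
        exact h2
      rw [h1]
      refine finsum_congr fun x => ?_
      rw [hΦ]
      by_cases hx : x ∈ Hor hC K m
      · rw [if_pos ⟨hx, hy⟩, finsum_eq_if, if_pos hx]
        show k x y = (starRingEnd ℂ) ((starRingEnd ℂ) (k x y))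
        rw [Complex.conj_conj]
      · rw [if_neg (fun h => hx h.1), finsum_eq_if, if_neg hx]
    · rw [if_neg hy, zero_mul]
      have : ∀ x, Φ x y = 0 := fun x => by rw [hΦ, if_neg (fun h => hy h.2)]
      simp [this]
  have hL : ∑ᶠ o : MulAction.orbitRel.Quotient (U0 C N) (XX C K),
      (∑ᶠ y, Φ o.out y) / (Nat.card (MulAction.stabilizer (U0 C N) o.out) : ℂ) =
      ((vol hC N m : ℝ) : ℂ) * hsum hC k (m' - m) := by
    rw [hvc, finsum_mul]
    · refine finsum_congr fun o => ?_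
      rw [hrow]
      ring
  have hR : ∑ᶠ o : MulAction.orbitRel.Quotient (U0 C N) (XX C K),
      (∑ᶠ x, Φ x o.out) / (Nat.card (MulAction.stabilizer (U0 C N) o.out) : ℂ) =
      ((vol hC N m' : ℝ) : ℂ) * (starRingEnd ℂ) (hsum hC (kst k) (m - m')) := by
    rw [hvc, finsum_mul]
    · refine finsum_congr fun o => ?_
      rw [hcol]
      ring
  rw [hL, hR] at hmt
  have hq : (Nat.card K : ℂ) ≠ 0 := by
    have : Nat.card K ≠ 0 := Nat.card_pos.ne'
    exact_mod_cast this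
  have hfl := (hFla r C hC K k hker).1 (m - m')
  have hneg : -(m - m') = m' - m := by abel
  rw [hneg] at hfl
  unfold sat at hfl
  have hhv : hv (m' - m) = hv m' - hv m := by
    unfold hv
    rw [← Finset.sum_sub_distrib]
    rfl
  have hhv' : hv (m - m') = hv m - hv m' := by
    unfold hv
    rw [← Finset.sum_sub_distrib]
    rfl
  have hne : hsum hC k (m' - m) ≠ 0 := kl_hsum hC (m' - m)
  -- conj of hsum (kst k)
  have h5 : (starRingEnd ℂ) (hsum hC (kst k) (m - m')) =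
      (Nat.card K : ℂ) ^ (2 * hv m') / (Nat.card K : ℂ) ^ (2 * hv m) *
        hsum hC k (m' - m) := by
    have h6 := congrArg (starRingEnd ℂ) hfl
    rw [Complex.conj_conj, map_mul, map_zpow₀, Complex.conj_natCast, hhv, hhv'] at h6
    have h7 : (Nat.card K : ℂ) ^ (hv m - hv m') ≠ 0 := zpow_ne_zero _ hq
    have h8 : (starRingEnd ℂ) (hsum hC (kst k) (m - m')) =
        ((Nat.card K : ℂ) ^ (hv m - hv m'))⁻¹ * ((Nat.card K : ℂ) ^ (hv m' - hv m) *
          hsum hC k (m' - m)) := by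
      rw [← h6, inv_mul_cancel_left₀ h7]
    rw [h8, ← mul_assoc, ← zpow_neg, ← zpow_add₀ hq, ← zpow_sub₀ hq]
    congr 2
    ring
  rw [h5, ← mul_assoc] at hmt
  have h9 := mul_right_cancel₀ hne hmt
  have h10 : (Nat.card K : ℂ) ^ (2 * hv m) ≠ 0 := zpow_ne_zero _ hq
  have h11 : ((vol hC N m : ℝ) : ℂ) * (Nat.card K : ℂ) ^ (2 * hv m) =
      ((vol hC N m' : ℝ) : ℂ) * (Nat.card K : ℂ) ^ (2 * hv m') := by
    rw [h9, mul_assoc, div_mul_cancel₀ _ h10]
  apply Complex.ofReal_injective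
  rw [Complex.ofReal_mul, Complex.ofReal_mul, Complex.ofReal_zpow, Complex.ofReal_zpow,
    Complex.ofReal_natCast]
  exact h11

end Pool.Agent.WHC.H49
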